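import Mathlib
import Pool.Agent.TH967.PCA.Cyl

set_option autoImplicit false

open MeasureTheory ProbabilityTheory Filter Topology
open Pool.Agent.H443R3

/-!
# A uniformly ergodic probabilistic cellular automaton that is not exponentially ergodic

`PCA d S`, `Config d S`, `cyl`, `PCA.evolve` and `ErgodicWith` are defined in `Pool.Agent.H443R3`:
a PCA is a finite neighbourhood together with a local rule; `evolve μ` is the action `μΦ` on
measures, whose kernel `PCA.step` is the product over the sites of the local rules; `cyl A u` is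
the cylinder of the configurations equal to `u` on the finite set `A`; `ErgodicWith Φ π` says that
`π` is the unique invariant probability measure and that `μΦ^t → π` weakly for every initial
probability measure `μ`.
-/

namespace Pool.Agent.Results.MP_37af32_pr.UniformNotExponential

/-- The distance `|μΦ^t(C) - π(C)|` for the cylinder `C = cyl A u`. -/
noncomputable def gap {d : ℕ} {S : Type} [MeasurableSpace S] (Φ : PCA d S)
    (π μ : Measure (Config d S)) (A : Finset (Site d)) (u : A → S) (t : ℕ) : ℝ :=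
  |((Φ.evolve^[t] μ) (cyl A u)).toReal - (π (cyl A u)).toReal|

/-- `Φ` is uniformly ergodic with invariant law `π`: it is ergodic, and
`sup_μ |μΦ^t(C) - π(C)| → 0` as `t → ∞` for every cylinder `C`. -/
def UniformlyErgodic {d : ℕ} {S : Type} [TopologicalSpace S] [MeasurableSpace S] (Φ : PCA d S)
    (π : Measure (Config d S)) : Prop :=
  ErgodicWith Φ π ∧ ∀ (A : Finset (Site d)) (u : A → S) (ε : ℝ), 0 < ε → ∃ T : ℕ, ∀ t ≥ T,
    ∀ μ : Measure (Config d S), IsProbabilityMeasure μ → gap Φ π μ A u t ≤ ε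

/-- `Φ` is exponentially ergodic, with constants that do not depend on the initial law. -/
def ExponentiallyErgodic {d : ℕ} {S : Type} [TopologicalSpace S] [MeasurableSpace S]
    (Φ : PCA d S) (π : Measure (Config d S)) : Prop :=
  ErgodicWith Φ π ∧ ∀ (A : Finset (Site d)) (u : A → S), ∃ K γ : ℝ, γ < 1 ∧
    ∀ μ : Measure (Config d S), IsProbabilityMeasure μ → ∀ t : ℕ, gap Φ π μ A u t ≤ K * γ ^ t

/-- The weaker variant of exponential ergodicity, whose constants may depend on the initial law. -/
def WeaklyExponentiallyErgodic {d : ℕ} {S : Type} [TopologicalSpace S] [MeasurableSpace S]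
    (Φ : PCA d S) (π : Measure (Config d S)) : Prop :=
  ErgodicWith Φ π ∧ ∀ (A : Finset (Site d)) (u : A → S) (μ : Measure (Config d S)),
    IsProbabilityMeasure μ → ∃ K γ : ℝ, γ < 1 ∧ ∀ t : ℕ, gap Φ π μ A u t ≤ K * γ ^ t

/-- Values bounded below by `1 / (2 (t + 1))` at time `t + 1` do not decay exponentially. -/
theorem not_exp {g : ℕ → ℝ} (hg : ∀ t, 0 ≤ g t) (h : ∀ t : ℕ, 1 / (2 * ((t : ℝ) + 1)) ≤ g (t + 1))
    (K γ : ℝ) (hγ : γ < 1) : ¬ ∀ t : ℕ, g t ≤ K * γ ^ t := by
  intro hb
  have hK : 0 ≤ K := by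
    have := (hg 0).trans (hb 0)
    simpa using this
  have h1 : 0 < g 1 := by
    have := h 0
    norm_num at this
    linarith
  have hγ0 : 0 < γ := by
    by_contra hneg
    push Not at hneg
    have h2 := hb 1
    rw [pow_one] at h2
    have h3 : K * γ ≤ 0 := mul_nonpos_of_nonneg_of_nonpos hK hneg
    linarith
  -- `(t + 1) γ ^ (t + 1) → 0`
  have hlim : Tendsto (fun n : ℕ => (n : ℝ) * γ ^ n) atTop (𝓝 0) :=
    tendsto_self_mul_const_pow_of_lt_one hγ0.le hγ
  have hlim2 : Tendsto (fun n : ℕ => 2 * K * ((n : ℝ) * γ ^ n)) atTop (𝓝 0) := by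
    simpa using hlim.const_mul (2 * K)
  have hlim3 := (tendsto_add_atTop_iff_nat 1).2 hlim2
  have hge : ∀ n : ℕ, 1 ≤ 2 * K * (((n + 1 : ℕ) : ℝ) * γ ^ (n + 1)) := by
    intro n
    have h2 := (h n).trans (hb (n + 1))
    have h3 : (0 : ℝ) < 2 * ((n : ℝ) + 1) := by positivity
    rw [div_le_iff₀ h3] at h2
    push_cast
    linarith
  have := ge_of_tendsto' hlim3 hge
  linarith

/-- **Theorem.** In every dimension `d ≥ 1` there is a probabilistic cellular automaton `Φ` on
`ℤ^d`, with an alphabet of four symbols, that is uniformly ergodic but not exponentially ergodic,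
not even in the weaker variant in which the constants may depend on the initial law. Moreover, for
one fixed initial law `μ₀` and one fixed cylinder, the distance to the stationary value at time
`t + 1` is at least `1 / (2 (t + 1))` for every `t`. -/
theorem result (d : ℕ) (hd : 1 ≤ d) :
    ∃ (Φ : PCA d (Bool × Bool)) (π : Measure (Config d (Bool × Bool))),
      ErgodicWith Φ π ∧
      UniformlyErgodic Φ π ∧
      (¬ ∃ π' : Measure (Config d (Bool × Bool)), ExponentiallyErgodic Φ π') ∧
      (¬ ∃ π' : Measure (Config d (Bool × Bool)), WeaklyExponentiallyErgodic Φ π') ∧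
      ∃ (μ₀ : Measure (Config d (Bool × Bool))) (A : Finset (Site d)) (u : A → Bool × Bool),
        IsProbabilityMeasure μ₀ ∧
        ∀ t : ℕ, 1 / (2 * ((t : ℝ) + 1)) ≤ gap Φ π μ₀ A u (t + 1) := by
  -- the direction of the walks
  have hz : 0 < d := hd
  let e : Site d := fun _ => 1
  have he : e ≠ 0 := by
    intro h
    have := congrFun h ⟨0, hz⟩
    simp [e] at this
  let Φ : PCA d (Bool × Bool) := Pool.Agent.TH967.PCA.coal e
  let π : Measure (Config d (Bool × Bool)) := Pool.Agent.TH967.PCA.stat e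
  have hπ : IsProbabilityMeasure π := by
    change IsProbabilityMeasure (Pool.Agent.TH967.PCA.stat e)
    infer_instance
  have hMlim := Pool.Agent.TH967.PCA.M_tendsto 1
  -- uniform convergence
  have hunif : ∀ (A : Finset (Site d)) (u : A → Bool × Bool) (ε : ℝ), 0 < ε → ∃ T : ℕ, ∀ t ≥ T,
      ∀ μ : Measure (Config d (Bool × Bool)), IsProbabilityMeasure μ → gap Φ π μ A u t ≤ ε := by
    intro A u ε hε
    have h1 : Tendsto (fun t => (A.card : ℝ) * Pool.Agent.TH967.PCA.M t 1) atTop (𝓝 0) := by
      simpa using hMlim.const_mul (A.card : ℝ)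
    obtain ⟨T, hT⟩ := eventually_atTop.1 (h1.eventually (gt_mem_nhds hε))
    refine ⟨T + 1, fun t ht μ hμ => ?_⟩
    obtain ⟨s, rfl⟩ : ∃ s, t = s + 1 := ⟨t - 1, by omega⟩
    exact (Pool.Agent.TH967.PCA.cyl_dist_iterate he μ A u s).trans (hT s (by omega)).le
  have herg : ErgodicWith Φ π := by
    apply ergodicWith_of_cylinders
    intro μ hμ A u
    have hp : ∀ n, IsProbabilityMeasure (Φ.evolve^[n] μ) := fun n =>
      Φ.isProbabilityMeasure_iterate μ n
    rw [← ENNReal.tendsto_toReal_iff (fun n => measure_ne_top _ _) (measure_ne_top _ _)]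
    rw [Metric.tendsto_atTop]
    intro ε hε
    obtain ⟨T, hT⟩ := hunif A u (ε / 2) (half_pos hε)
    refine ⟨T, fun n hn => ?_⟩
    rw [Real.dist_eq]
    have := hT n hn μ hμ
    unfold gap at this
    linarith
  have hlow : ∀ t : ℕ, 1 / (2 * ((t : ℝ) + 1)) ≤ gap Φ π
      (Measure.dirac (Pool.Agent.TH967.PCA.full d)) ({0} : Finset (Site d))
      (fun _ => (true, true)) (t + 1) := by
    intro t
    have h1 := Pool.Agent.TH967.PCA.tst_iterate he t
    have h2 := Pool.Agent.TH967.PCA.stat_tst e
    unfold Pool.Agent.TH967.PCA.tst at h1 h2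
    unfold gap
    change _ ≤ |((Pool.Agent.TH967.PCA.coal e).evolve^[t + 1]
      (Measure.dirac (Pool.Agent.TH967.PCA.full d)) _).toReal -
      (Pool.Agent.TH967.PCA.stat e _).toReal|
    rw [h1, h2, ENNReal.toReal_zero, sub_zero,
      abs_of_nonneg (by have := Pool.Agent.TH967.PCA.M_nonneg t 1; positivity)]
    have h3 := Pool.Agent.TH967.PCA.M_one_lower t
    have h4 : (0 : ℝ) < (t : ℝ) + 1 := by positivity
    have h5 : 1 / (2 * ((t : ℝ) + 1)) = 1 / ((t : ℝ) + 1) / 2 := by
      field_simp
    rw [h5]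
    linarith
  have hnn : ∀ t, 0 ≤ gap Φ π (Measure.dirac (Pool.Agent.TH967.PCA.full d))
      ({0} : Finset (Site d)) (fun _ => (true, true)) t := fun t => abs_nonneg _
  refine ⟨Φ, π, herg, ⟨herg, hunif⟩, ?_, ?_, Measure.dirac (Pool.Agent.TH967.PCA.full d),
    {0}, fun _ => (true, true), inferInstance, hlow⟩
  · rintro ⟨π', hE, hx⟩
    have hπ' : π' = π := herg.unique π' hE.prob hE.invariant
    subst hπ'
    obtain ⟨K, γ, hγ, hb⟩ := hx {0} (fun _ => (true, true))
    exact not_exp hnn hlow K γ hγ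
      (hb (Measure.dirac (Pool.Agent.TH967.PCA.full d)) inferInstance)
  · rintro ⟨π', hE, hx⟩
    have hπ' : π' = π := herg.unique π' hE.prob hE.invariant
    subst hπ'
    obtain ⟨K, γ, hγ, hb⟩ := hx {0} (fun _ => (true, true))
      (Measure.dirac (Pool.Agent.TH967.PCA.full d)) inferInstance
    exact not_exp hnn hlow K γ hγ hb

end Pool.Agent.Results.MP_37af32_pr.UniformNotExponential
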